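import Pool.Agent.K4H99.AC.Main
import Pool.Agent.K4H99.AC.Data

/-! Kernel verification of the properties of the packed heights. -/

set_option autoImplicit false

open MeasureTheory Set

namespace Pool.Agent.K4H99.AC

theorem packed_lt : packed < 2 ^ (66 * 8192) := by decide +kernel

theorem packed_sm : sm 66 13 packed = 5622796069 := by decide +kernel

theorem packed_chk : chk 66 2900002902309364 14 (packed * packed) = true := by decide +kernel

/-- the upper bound given by the step function with 8192 steps -/
theorem bound8192 (c : ℝ)
    (hc : ∀ f : ℝ → ℝ, (∀ x, 0 ≤ f x) → MemLp f 2 volume →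
      c * (∫ x in Icc (-(1 / 4) : ℝ) (1 / 4), f x) ^ 2 ≤
        ⨆ t : Icc (-(1 / 2) : ℝ) (1 / 2), ∫ y, f y * f (t - y)) :
    c ≤ 1.502844 := by
  have h := bound (b := 66) (n := 8192) (X := packed) (S := 5622796069) (C := 2900002902309364)
    (k := 14) (l := 13) (by norm_num) packed_lt (by norm_num) packed_sm (by norm_num)
    (by norm_num) (by norm_num) packed_chk c hc
  refine h.trans ?_
  norm_num

end Pool.Agent.K4H99.AC
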