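import Mathlib

/-! Autoconvolutions of sequences of natural numbers, packed into one natural number. -/

set_option autoImplicit false

open Polynomial

namespace Pool.Agent.K4H99.AC

/-- the `i`-th digit of `X` in base `2 ^ b` -/
def dig (b X i : ℕ) : ℕ := X / 2 ^ (b * i) % 2 ^ b

/-- all the `2 ^ k` digits of `X` in base `2 ^ b` are at most `C` -/
def chk (b C : ℕ) : ℕ → ℕ → Bool
  | 0, X => Nat.ble X C
  | k + 1, X => chk b C k (X / 2 ^ (b * 2 ^ k)) && chk b C k (X % 2 ^ (b * 2 ^ k))

/-- the sum of the `2 ^ k` digits of `X` in base `2 ^ b` -/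
def sm (b : ℕ) : ℕ → ℕ → ℕ
  | 0, X => X
  | k + 1, X => sm b k (X / 2 ^ (b * 2 ^ k)) + sm b k (X % 2 ^ (b * 2 ^ k))

theorem dig_high (b X k i : ℕ) :
    dig b (X / 2 ^ (b * 2 ^ k)) i = dig b X (2 ^ k + i) := by
  unfold dig
  rw [Nat.div_div_eq_div_mul, ← pow_add, mul_add]

theorem dig_low (b X k i : ℕ) (hi : i < 2 ^ k) :
    dig b (X % 2 ^ (b * 2 ^ k)) i = dig b X i := by
  unfold dig
  obtain ⟨c, hc⟩ : ∃ c, b * 2 ^ k = b * i + (b + c) := by
    obtain ⟨e, he⟩ := Nat.exists_eq_add_of_lt hi
    exact ⟨b * e, by rw [he]; ring⟩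
  rw [hc, pow_add 2 (b * i), Nat.mod_mul_right_div_self, pow_add 2 b, Nat.mod_mul_right_mod]

theorem chk_spec (b C : ℕ) : ∀ (k X : ℕ), chk b C k X = true → X < 2 ^ (b * 2 ^ k) →
    ∀ i < 2 ^ k, dig b X i ≤ C
  | 0, X, h, hX, i, hi => by
    have : i = 0 := by simpa using hi
    subst this
    unfold dig
    simp only [pow_zero, mul_one] at hX
    rw [mul_zero, pow_zero, Nat.div_one, Nat.mod_eq_of_lt hX]
    exact Nat.le_of_ble_eq_true h
  | k + 1, X, h, hX, i, hi => by
    rw [chk, Bool.and_eq_true] at h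
    have hpos : 0 < 2 ^ (b * 2 ^ k) := by positivity
    rcases lt_or_ge i (2 ^ k) with h1 | h1
    · rw [← dig_low b X k i h1]
      exact chk_spec b C k _ h.2 (Nat.mod_lt _ hpos) i h1
    · obtain ⟨j, rfl⟩ := Nat.exists_eq_add_of_le h1
      rw [← dig_high]
      refine chk_spec b C k _ h.1 ?_ j ?_
      · rw [Nat.div_lt_iff_lt_mul hpos, ← pow_add]
        refine lt_of_lt_of_eq hX ?_
        congr 1
        ring
      · rw [pow_succ] at hi
        omega

theorem sm_spec (b : ℕ) : ∀ (k X : ℕ), X < 2 ^ (b * 2 ^ k) →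
    sm b k X = ∑ i ∈ Finset.range (2 ^ k), dig b X i
  | 0, X, hX => by
    simp only [pow_zero, mul_one] at hX
    rw [pow_zero, Finset.sum_range_one, sm]
    unfold dig
    rw [mul_zero, pow_zero, Nat.div_one, Nat.mod_eq_of_lt hX]
  | k + 1, X, hX => by
    have hpos : 0 < 2 ^ (b * 2 ^ k) := by positivity
    rw [sm, sm_spec b k _ (Nat.mod_lt _ hpos), sm_spec b k (X / _), pow_succ, mul_two,
      Finset.sum_range_add, add_comm]
    · congr 1
      · exact Finset.sum_congr rfl fun i hi => dig_low b X k i (Finset.mem_range.1 hi)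
      · exact Finset.sum_congr rfl fun i _ => dig_high b X k i
    · rw [Nat.div_lt_iff_lt_mul hpos, ← pow_add]
      refine lt_of_lt_of_eq hX ?_
      congr 1
      ring

theorem digit_sum (B : ℕ) (hB : 0 < B) : ∀ (m N : ℕ) (f : ℕ → ℕ), (∀ i, f i < B) → m < N →
    (∑ i ∈ Finset.range N, f i * B ^ i) / B ^ m % B = f m
  | m, 0, f, _, h => absurd h (Nat.not_lt_zero _)
  | 0, N + 1, f, hf, _ => by
    rw [Finset.sum_range_succ', pow_zero, mul_one, Nat.div_one]
    have : ∑ k ∈ Finset.range N, f (k + 1) * B ^ (k + 1) =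
        B * ∑ k ∈ Finset.range N, f (k + 1) * B ^ k := by
      rw [Finset.mul_sum]
      exact Finset.sum_congr rfl fun i _ => by ring
    rw [this, Nat.mul_add_mod, Nat.mod_eq_of_lt (hf 0)]
  | m + 1, N + 1, f, hf, h => by
    rw [Finset.sum_range_succ', pow_zero, mul_one]
    have : ∑ k ∈ Finset.range N, f (k + 1) * B ^ (k + 1) =
        B * ∑ k ∈ Finset.range N, f (k + 1) * B ^ k := by
      rw [Finset.mul_sum]
      exact Finset.sum_congr rfl fun i _ => by ring
    rw [this, pow_succ', ← Nat.div_div_eq_div_mul, Nat.mul_add_div hB, Nat.div_eq_of_lt (hf 0),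
      add_zero]
    exact digit_sum B hB m N (fun i => f (i + 1)) (fun i => hf _) (by omega)

theorem expand (B : ℕ) (hB : 0 < B) : ∀ (n X : ℕ), X < B ^ n →
    X = ∑ i ∈ Finset.range n, (X / B ^ i % B) * B ^ i
  | 0, X, h => by
    simpa using h
  | n + 1, X, h => by
    rw [Finset.sum_range_succ', pow_zero, mul_one, Nat.div_one]
    have h1 : X / B < B ^ n := by
      rw [Nat.div_lt_iff_lt_mul hB, ← pow_succ]
      exact h
    have : ∑ k ∈ Finset.range n, (X / B ^ (k + 1) % B) * B ^ (k + 1) =
        B * ∑ k ∈ Finset.range n, ((X / B) / B ^ k % B) * B ^ k := by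
      rw [Finset.mul_sum]
      refine Finset.sum_congr rfl fun i _ => ?_
      rw [Nat.div_div_eq_div_mul, ← pow_succ']
      ring
    rw [this, ← expand B hB n (X / B) h1, Nat.div_add_mod]

variable {b n X S : ℕ}

theorem dig_eq_zero (hX : X < 2 ^ (b * n)) {i : ℕ} (hi : n ≤ i) : dig b X i = 0 := by
  unfold dig
  rw [Nat.div_eq_of_lt, Nat.zero_mod]
  exact lt_of_lt_of_le hX (Nat.pow_le_pow_right (by norm_num) (Nat.mul_le_mul_left b hi))

/-- the coefficients of the autoconvolution are digits of the square -/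
theorem conv_eq (hX : X < 2 ^ (b * n)) (hS : ∑ i ∈ Finset.range n, dig b X i ≤ S)
    (hSB : S * S < 2 ^ b) (m : ℕ) :
    ∑ x ∈ Finset.HasAntidiagonal.antidiagonal m, dig b X x.1 * dig b X x.2 = dig b (X * X) m := by
  have hB : 0 < 2 ^ b := by positivity
  set p : ℕ[X] := ∑ i ∈ Finset.range n, monomial i (dig b X i) with hp
  have hc : ∀ i, p.coeff i = dig b X i := by
    intro i
    rw [hp, finsetSum_coeff]
    simp only [coeff_monomial]
    rw [Finset.sum_ite_eq']
    split_ifs with h
    · rfl
    · rw [dig_eq_zero hX]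
      simpa using h
  have hdeg : p.natDegree ≤ n := by
    rw [natDegree_le_iff_coeff_eq_zero]
    intro N hN
    rw [hc, dig_eq_zero hX hN.le]
  have he : p.eval (2 ^ b) = X := by
    rw [eval_eq_sum_range' (n := n + 1) (by omega), Finset.sum_range_succ, hc,
      dig_eq_zero hX le_rfl, zero_mul, add_zero]
    rw [pow_mul] at hX
    conv_rhs => rw [expand (2 ^ b) hB n X hX]
    refine Finset.sum_congr rfl fun i _ => ?_
    rw [hc]
    unfold dig
    rw [pow_mul]
  have hcc : ∀ i, (p * p).coeff i < 2 ^ b := by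
    intro i
    refine lt_of_le_of_lt ?_ hSB
    rw [coeff_mul]
    have hs : ∀ j, p.coeff j ≤ dig b X j := fun j => (hc j).le
    calc ∑ x ∈ Finset.HasAntidiagonal.antidiagonal i, p.coeff x.1 * p.coeff x.2
        ≤ ∑ x ∈ Finset.range n ×ˢ Finset.range n, p.coeff x.1 * p.coeff x.2 := by
          rw [← Finset.sum_filter_add_sum_filter_not (Finset.HasAntidiagonal.antidiagonal i)
            (fun x => x ∈ Finset.range n ×ˢ Finset.range n)]
          have h2 : ∑ x ∈ (Finset.HasAntidiagonal.antidiagonal i).filter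
              (fun x => ¬ x ∈ Finset.range n ×ˢ Finset.range n), p.coeff x.1 * p.coeff x.2 = 0 := by
            apply Finset.sum_eq_zero
            intro x hx
            rw [Finset.mem_filter, Finset.mem_product, Finset.mem_range, Finset.mem_range,
              not_and_or, not_lt, not_lt] at hx
            rcases hx.2 with h | h
            · rw [hc, dig_eq_zero hX h, zero_mul]
            · rw [hc x.2, dig_eq_zero hX h, mul_zero]
          rw [h2, add_zero]
          apply Finset.sum_le_sum_of_subset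
          intro x hx
          exact (Finset.mem_filter.1 hx).2
      _ = (∑ j ∈ Finset.range n, p.coeff j) * ∑ j ∈ Finset.range n, p.coeff j := by
          rw [Finset.sum_mul_sum, Finset.sum_product]
      _ ≤ S * S := by
          have : ∑ j ∈ Finset.range n, p.coeff j ≤ S := by
            refine le_trans (le_of_eq ?_) hS
            exact Finset.sum_congr rfl fun j _ => hc j
          exact Nat.mul_le_mul this this
  have hsq : X * X = ∑ i ∈ Finset.range (2 * n + 1 + m), (p * p).coeff i * (2 ^ b) ^ i := by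
    rw [← eval_eq_sum_range' (p := p * p) (n := 2 * n + 1 + m), eval_mul, he]
    have := natDegree_mul_le (p := p) (q := p)
    omega
  have := digit_sum (2 ^ b) hB m (2 * n + 1 + m) (p * p).coeff hcc (by omega)
  rw [← hsq, coeff_mul] at this
  unfold dig
  rw [pow_mul, this]
  exact Finset.sum_congr rfl fun x _ => by rw [hc, hc]; rfl

/-- the digits as a sequence indexed by the integers -/
noncomputable def seq (b X : ℕ) (k : ℤ) : ℝ := if k < 0 then 0 else (dig b X k.toNat : ℝ)

theorem seq_nonneg (k : ℤ) : 0 ≤ seq b X k := by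
  unfold seq
  split_ifs
  · exact le_rfl
  · positivity

theorem seq_natCast (i : ℕ) : seq b X i = dig b X i := by
  unfold seq
  rw [if_neg (by omega)]
  simp

theorem seq_le (k : ℤ) : seq b X k ≤ 2 ^ b := by
  unfold seq
  split_ifs
  · positivity
  · unfold dig
    exact_mod_cast (Nat.mod_lt _ (by positivity)).le

theorem seq_eq_zero (hX : X < 2 ^ (b * n)) (k : ℤ) (hk : k < 0 ∨ (n : ℤ) ≤ k) :
    seq b X k = 0 := by
  unfold seq
  split_ifs with h
  · rfl
  · rw [dig_eq_zero hX (by omega)]
    simp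

theorem seq_conv (hX : X < 2 ^ (b * n)) (hS : ∑ i ∈ Finset.range n, dig b X i ≤ S)
    (hSB : S * S < 2 ^ b) {k C : ℕ} (hk : 2 * n ≤ 2 ^ k) (hC : chk b C k (X * X) = true) (m : ℤ) :
    ∑ i ∈ Finset.range n, seq b X i * seq b X (m - i) ≤ C := by
  rcases lt_or_ge m 0 with hm | hm
  · rw [Finset.sum_eq_zero]
    · positivity
    · intro i _
      have : seq b X (m - i) = 0 := by
        unfold seq
        rw [if_pos (by omega)]
      rw [this, mul_zero]
  · obtain ⟨j, rfl⟩ := Int.eq_ofNat_of_zero_le hm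
    have hXX : X * X < 2 ^ (b * 2 ^ k) := by
      have h1 : X * X < 2 ^ (b * n) * 2 ^ (b * n) := Nat.mul_lt_mul'' hX hX
      rw [← pow_add] at h1
      refine lt_of_lt_of_le h1 (Nat.pow_le_pow_right (by norm_num) ?_)
      nlinarith
    have h1 : dig b (X * X) j ≤ C := by
      rcases lt_or_ge j (2 ^ k) with h | h
      · exact chk_spec b C k _ hC hXX j h
      · rw [dig_eq_zero hXX h]
        exact Nat.zero_le _
    rw [← conv_eq hX hS hSB] at h1
    have h2 : ∑ i ∈ Finset.range n, seq b X i * seq b X ((j : ℤ) - i) =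
        ((∑ x ∈ Finset.HasAntidiagonal.antidiagonal j, dig b X x.1 * dig b X x.2 : ℕ) : ℝ) := by
      rw [Finset.Nat.sum_antidiagonal_eq_sum_range_succ
        (f := fun i l => dig b X i * dig b X l)]
      push_cast
      have e1 : ∀ i ∈ Finset.range (j + 1), (dig b X i : ℝ) * dig b X (j - i) =
          seq b X i * seq b X ((j : ℤ) - i) := by
        intro i hi
        rw [Finset.mem_range] at hi
        rw [seq_natCast, show ((j : ℤ) - i) = ((j - i : ℕ) : ℤ) by omega, seq_natCast]
      rw [Finset.sum_congr rfl e1]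
      rcases le_total n (j + 1) with h | h
      · apply Finset.sum_subset (Finset.range_subset_range.2 h)
        intro i _ hi
        rw [Finset.mem_range, not_lt] at hi
        rw [seq_natCast, dig_eq_zero hX hi]
        simp
      · symm
        apply Finset.sum_subset (Finset.range_subset_range.2 h)
        intro i _ hi
        rw [Finset.mem_range, not_lt] at hi
        have : seq b X ((j : ℤ) - i) = 0 := by
          unfold seq
          rw [if_pos (by omega)]
        rw [this, mul_zero]
    rw [h2]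
    exact_mod_cast h1

end Pool.Agent.K4H99.AC
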