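import Pool.Agent.K4H99.AC.Step
import Pool.Agent.K4H99.AC.Digits

/-! An upper bound for the autocorrelation constant from a step function with packed heights. -/

set_option autoImplicit false

open MeasureTheory Set

namespace Pool.Agent.K4H99.AC

theorem sm_range {b n X k : ℕ} (hX : X < 2 ^ (b * n)) (hk : n ≤ 2 ^ k) :
    sm b k X = ∑ i ∈ Finset.range n, dig b X i := by
  rw [sm_spec b k X (lt_of_lt_of_le hX (Nat.pow_le_pow_right (by norm_num)
    (Nat.mul_le_mul_left b hk)))]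
  symm
  apply Finset.sum_subset (Finset.range_subset_range.2 hk)
  intro i _ hi
  rw [Finset.mem_range, not_lt] at hi
  exact dig_eq_zero hX hi

/-- a step function whose autoconvolution is small compared to the square of its mass -/
theorem exists_step {b n X S C k l : ℕ} (hn : 0 < n) (hX : X < 2 ^ (b * n)) (hl : n ≤ 2 ^ l)
    (hS : sm b l X = S) (hSB : S * S < 2 ^ b) (hk : 2 * n ≤ 2 ^ k)
    (hC : chk b C k (X * X) = true) :
    ∃ f : ℝ → ℝ, (∀ x, 0 ≤ f x) ∧ MemLp f 2 volume ∧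
      ∫ x in Icc (-(1 / 4) : ℝ) (1 / 4), f x = S / (2 * n) ∧
      ∀ t, ∫ y, f y * f (t - y) ≤ C / (2 * n) := by
  have hsum : ∑ i ∈ Finset.range n, dig b X i = S := by rw [← sm_range hX hl, hS]
  refine ⟨step n (seq b X), step_nonneg seq_nonneg, memLp hn seq_nonneg seq_le (seq_eq_zero hX),
    ?_, conv_le hn seq_nonneg seq_le (seq_eq_zero hX) (seq_conv hX hsum.le hSB hk hC)⟩
  rw [mass_eq hn seq_nonneg seq_le]
  congr 1
  rw [← hsum]
  push_cast
  exact Finset.sum_congr rfl fun i _ => seq_natCast i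

/-- the bound for the constant -/
theorem bound {b n X S C k l : ℕ} (hn : 0 < n) (hX : X < 2 ^ (b * n)) (hl : n ≤ 2 ^ l)
    (hS : sm b l X = S) (hS0 : 0 < S) (hSB : S * S < 2 ^ b) (hk : 2 * n ≤ 2 ^ k)
    (hC : chk b C k (X * X) = true) (c : ℝ)
    (hc : ∀ f : ℝ → ℝ, (∀ x, 0 ≤ f x) → MemLp f 2 volume →
      c * (∫ x in Icc (-(1 / 4) : ℝ) (1 / 4), f x) ^ 2 ≤
        ⨆ t : Icc (-(1 / 2) : ℝ) (1 / 2), ∫ y, f y * f (t - y)) :
    c ≤ 2 * n * C / S ^ 2 := by
  obtain ⟨f, h0, hf, hm, hconv⟩ := exists_step hn hX hl hS hSB hk hC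
  have h1 := hc f h0 hf
  have : Nonempty (Icc (-(1 / 2) : ℝ) (1 / 2)) := ⟨⟨0, by norm_num, by norm_num⟩⟩
  have h2 : (⨆ t : Icc (-(1 / 2) : ℝ) (1 / 2), ∫ y, f y * f (t - y)) ≤ C / (2 * n) :=
    ciSup_le fun t => hconv t
  have h3 := h1.trans h2
  rw [hm] at h3
  have hn' : (0 : ℝ) < 2 * n := by positivity
  have hS' : (0 : ℝ) < S := by positivity
  rw [le_div_iff₀ (by positivity)]
  rw [div_pow, le_div_iff₀ hn', mul_div_assoc', div_mul_eq_mul_div,
    div_le_iff₀ (by positivity)] at h3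
  nlinarith

end Pool.Agent.K4H99.AC
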