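import Mathlib

/-! Autoconvolutions of step functions: the analytic part. -/

set_option autoImplicit false

open MeasureTheory Set

namespace Pool.Agent.K4H99.AC

/-- the step function with `n` steps on `[-1/4, 1/4)` and heights `a 0, ..., a (n - 1)` -/
noncomputable def step (n : ℕ) (a : ℤ → ℝ) (x : ℝ) : ℝ := a ⌊(x + 1 / 4) * (2 * n)⌋

variable {n : ℕ} {a : ℤ → ℝ}

theorem step_measurable : Measurable (step n a) := by
  unfold step
  exact (measurable_from_top (f := a)).comp
    (Int.measurable_floor.comp ((measurable_id.add_const _).mul_const _))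

theorem step_nonneg (h0 : ∀ k, 0 ≤ a k) (x : ℝ) : 0 ≤ step n a x := h0 _

/-- bound for the heights -/
theorem step_le {A : ℝ} (hA : ∀ k, a k ≤ A) (x : ℝ) : step n a x ≤ A := hA _

theorem step_eq_zero (hn : 0 < n) (hs : ∀ k : ℤ, (k < 0 ∨ (n : ℤ) ≤ k) → a k = 0) {x : ℝ}
    (hx : x < -(1 / 4) ∨ 1 / 4 ≤ x) : step n a x = 0 := by
  have hn' : (0 : ℝ) < 2 * n := by positivity
  apply hs
  rcases hx with hx | hx
  · left
    rw [Int.floor_lt]
    push_cast
    have : (x + 1 / 4) < 0 := by linarith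
    exact mul_neg_of_neg_of_pos this hn'
  · right
    rw [Int.le_floor]
    push_cast
    nlinarith

theorem step_piece (hn : 0 < n) (i : ℤ) {s : ℝ} (hs0 : 0 ≤ s) (hs1 : s < 1 / (2 * n)) :
    step n a (-(1 / 4) + i * (1 / (2 * n)) + s) = a i := by
  unfold step
  have hn' : (0 : ℝ) < 2 * n := by positivity
  have e : (-(1 / 4) + (i : ℝ) * (1 / (2 * n)) + s + 1 / 4) * (2 * n) = i + s * (2 * n) := by
    field_simp
    ring
  rw [e, Int.floor_intCast_add]
  have : ⌊s * (2 * (n : ℝ))⌋ = 0 := by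
    rw [Int.floor_eq_zero_iff]
    refine ⟨by positivity, ?_⟩
    rw [lt_div_iff₀ hn'] at hs1
    exact hs1
  rw [this, add_zero]

theorem step_shift (hn : 0 < n) (i : ℤ) (t s : ℝ) :
    step n a (t - (-(1 / 4) + i * (1 / (2 * n)) + s)) = a (⌊(t - s + 1 / 2) * (2 * n)⌋ - i) := by
  unfold step
  have hn' : (0 : ℝ) < 2 * n := by positivity
  have e : (t - (-(1 / 4) + (i : ℝ) * (1 / (2 * n)) + s) + 1 / 4) * (2 * n) =
      (t - s + 1 / 2) * (2 * n) - i := by
    field_simp
    ring
  rw [e, Int.floor_sub_intCast]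

theorem bdd_intervalIntegrable {g : ℝ → ℝ} (hg : Measurable g) {A : ℝ} (hA : ∀ x, ‖g x‖ ≤ A)
    (u v : ℝ) : IntervalIntegrable g volume u v := by
  rw [intervalIntegrable_iff]
  exact Measure.integrableOn_of_bounded (measure_Ioc_lt_top.ne) hg.aestronglyMeasurable
    (M := A) (Filter.Eventually.of_forall fun x => hA x)

/-- an integral over `[-1/4, 1/4]`, cut into `n` pieces -/
theorem pieces (hn : 0 < n) {g : ℝ → ℝ} (hg : Measurable g) {A : ℝ} (hA : ∀ x, ‖g x‖ ≤ A) :
    ∫ y in (-(1 / 4) : ℝ)..(1 / 4), g y =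
      ∫ s in (0 : ℝ)..(1 / (2 * n)), ∑ i ∈ Finset.range n, g (-(1 / 4) + i * (1 / (2 * n)) + s) := by
  have hn' : (0 : ℝ) < 2 * n := by positivity
  set p : ℕ → ℝ := fun i => -(1 / 4) + i * (1 / (2 * n)) with hp
  have h0 : p 0 = -(1 / 4) := by simp [hp]
  have h1 : p n = 1 / 4 := by
    simp only [hp]
    field_simp
    ring
  have hsum := intervalIntegral.sum_integral_adjacent_intervals (f := g) (a := p) (n := n)
    (μ := volume) (fun k _ => bdd_intervalIntegrable hg hA _ _)
  rw [h0, h1] at hsum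
  rw [← hsum, intervalIntegral.integral_finsetSum]
  · refine Finset.sum_congr rfl fun i _ => ?_
    have := intervalIntegral.integral_comp_add_left (f := g) (a := 0) (b := 1 / (2 * (n : ℝ))) (p i)
    simp only [hp] at this ⊢
    rw [this, add_zero]
    congr 1
    push_cast
    ring
  · intro i _
    exact bdd_intervalIntegrable (hg.comp (measurable_const_add _)) (fun x => hA _) _ _

theorem integral_eq_interval {g : ℝ → ℝ} (hz : ∀ x, (x < -(1 / 4) ∨ 1 / 4 ≤ x) → g x = 0) :
    ∫ y, g y = ∫ y in (-(1 / 4) : ℝ)..(1 / 4), g y := by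
  rw [intervalIntegral.integral_of_le (by norm_num), ← integral_Icc_eq_integral_Ioc]
  symm
  apply setIntegral_eq_integral_of_forall_compl_eq_zero
  intro x hx
  apply hz
  rw [mem_Icc, not_and_or, not_le, not_le] at hx
  rcases hx with h | h
  · exact Or.inl h
  · exact Or.inr h.le

/-- the autoconvolution of a step function -/
theorem conv_le (hn : 0 < n) (h0 : ∀ k, 0 ≤ a k) {A : ℝ} (hA : ∀ k, a k ≤ A)
    (hs : ∀ k : ℤ, (k < 0 ∨ (n : ℤ) ≤ k) → a k = 0) {K : ℝ}
    (hK : ∀ m : ℤ, ∑ i ∈ Finset.range n, a i * a (m - i) ≤ K) (t : ℝ) :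
    ∫ y, step n a y * step n a (t - y) ≤ K / (2 * n) := by
  have hn' : (0 : ℝ) < 2 * n := by positivity
  have hA0 : 0 ≤ A := (h0 0).trans (hA 0)
  have hm : Measurable fun y => step n a y * step n a (t - y) :=
    step_measurable.mul (step_measurable.comp (measurable_const.sub measurable_id))
  have hb : ∀ y, ‖step n a y * step n a (t - y)‖ ≤ A * A := by
    intro y
    rw [Real.norm_of_nonneg (mul_nonneg (step_nonneg h0 _) (step_nonneg h0 _))]
    exact mul_le_mul (step_le hA _) (step_le hA _) (step_nonneg h0 _) hA0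
  rw [integral_eq_interval (fun x hx => by rw [step_eq_zero hn hs hx, zero_mul]),
    pieces hn hm hb]
  have hle : ∀ s ∈ Ioo (0 : ℝ) (1 / (2 * n)), (∑ i ∈ Finset.range n,
      step n a (-(1 / 4) + i * (1 / (2 * n)) + s) *
        step n a (t - (-(1 / 4) + i * (1 / (2 * n)) + s))) ≤ K := by
    intro s hs
    refine le_trans (le_of_eq ?_) (hK ⌊(t - s + 1 / 2) * (2 * n)⌋)
    refine Finset.sum_congr rfl fun i _ => ?_
    have e1 := step_piece (a := a) hn i hs.1.le hs.2
    have e2 := step_shift (a := a) hn i t s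
    push_cast at e1 e2
    rw [e1, e2]
  have hint : IntervalIntegrable (fun s => ∑ i ∈ Finset.range n,
      step n a (-(1 / 4) + i * (1 / (2 * n)) + s) *
        step n a (t - (-(1 / 4) + i * (1 / (2 * n)) + s))) volume 0 (1 / (2 * n)) := by
    refine bdd_intervalIntegrable (A := n * (A * A)) ?_ ?_ _ _
    · exact Finset.measurable_fun_sum _ fun i _ => hm.comp (measurable_const_add _)
    · intro x
      refine (norm_sum_le _ _).trans ?_
      refine (Finset.sum_le_sum fun i _ => hb _).trans ?_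
      rw [Finset.sum_const, Finset.card_range, nsmul_eq_mul]
  refine le_trans (intervalIntegral.integral_mono_on_of_le_Ioo (by positivity) hint
    (intervalIntegrable_const (c := K)) hle) ?_
  rw [intervalIntegral.integral_const, smul_eq_mul, sub_zero]
  exact le_of_eq (by ring)

theorem mass_eq (hn : 0 < n) (h0 : ∀ k, 0 ≤ a k) {A : ℝ} (hA : ∀ k, a k ≤ A) :
    ∫ x in Icc (-(1 / 4) : ℝ) (1 / 4), step n a x = (∑ i ∈ Finset.range n, a i) / (2 * n) := by
  have hn' : (0 : ℝ) < 2 * n := by positivity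
  rw [integral_Icc_eq_integral_Ioc, ← intervalIntegral.integral_of_le (by norm_num),
    pieces hn step_measurable (A := A)
      (fun x => by rw [Real.norm_of_nonneg (step_nonneg h0 _)]; exact step_le hA _)]
  have : ∫ s in (0 : ℝ)..(1 / (2 * n)), ∑ i ∈ Finset.range n,
      step n a (-(1 / 4) + i * (1 / (2 * n)) + s) =
      ∫ s in (0 : ℝ)..(1 / (2 * n)), ∑ i ∈ Finset.range n, a i := by
    rw [intervalIntegral.integral_of_le (by positivity),
      intervalIntegral.integral_of_le (by positivity), integral_Ioc_eq_integral_Ioo,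
      integral_Ioc_eq_integral_Ioo]
    apply setIntegral_congr_fun measurableSet_Ioo
    intro s hs
    refine Finset.sum_congr rfl fun i _ => ?_
    have e1 := step_piece (a := a) hn i hs.1.le hs.2
    push_cast at e1
    exact e1
  rw [this, intervalIntegral.integral_const, smul_eq_mul, sub_zero]
  ring

theorem memLp (hn : 0 < n) (h0 : ∀ k, 0 ≤ a k) {A : ℝ} (hA : ∀ k, a k ≤ A)
    (hs : ∀ k : ℤ, (k < 0 ∨ (n : ℤ) ≤ k) → a k = 0) : MemLp (step n a) 2 volume := by
  have hb : ∀ y, ‖step n a y‖ ≤ A := by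
    intro y
    rw [Real.norm_of_nonneg (step_nonneg h0 _)]
    exact step_le hA _
  have : step n a = (Icc (-(1 / 4) : ℝ) (1 / 4)).indicator (step n a) := by
    funext x
    by_cases hx : x ∈ Icc (-(1 / 4) : ℝ) (1 / 4)
    · rw [indicator_of_mem hx]
    · rw [indicator_of_notMem hx]
      apply step_eq_zero hn hs
      rw [mem_Icc, not_and_or, not_le, not_le] at hx
      rcases hx with h | h
      · exact Or.inl h
      · exact Or.inr h.le
  rw [this, memLp_indicator_iff_restrict measurableSet_Icc]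
  have : IsFiniteMeasure (volume.restrict (Icc (-(1 / 4) : ℝ) (1 / 4))) :=
    ⟨by rw [Measure.restrict_apply_univ]; exact measure_Icc_lt_top⟩
  exact MemLp.of_bound step_measurable.aestronglyMeasurable A (Filter.Eventually.of_forall hb)

end Pool.Agent.K4H99.AC
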